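import Pool.Agent.H7.GT.Stmts

/-!
# Row STC of the board `gt7` (MP_fd41b2_co): the structure
-/

set_option autoImplicit false

open Finset

namespace Pool.GT7

open Pool.Agent.H23.KT Pool.Agent.H46.KW Pool.KQ

theorem STC_thm (h1 : MMCStmt) (h2 : PRCStmt) (h3 : REAStmt) : STCStmt := by
  intro p w hw C₀
  obtain ⟨C₁, a₁, hM⟩ := h1 p w hw C₀
  obtain ⟨C, hC, hP⟩ := h2 p C₁
  obtain ⟨C', hC', hR⟩ := h3 p C hC
  refine ⟨C', hC', fun e he he2 => ?_⟩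
  obtain ⟨a₂, hP'⟩ := hP (e / 2) (by linarith)
  obtain ⟨a₃, hR'⟩ := hR e he he2
  refine ⟨max a₁ (max a₂ a₃), fun a ha V _ G W hCB hc hk => ?_⟩
  have ha1 : a₁ ≤ a := le_trans (le_max_left _ _) ha
  have ha2 : a₂ ≤ a := le_trans (le_trans (le_max_left _ _) (le_max_right _ _)) ha
  have ha3 : a₃ ≤ a := le_trans (le_trans (le_max_right _ _) (le_max_right _ _)) ha
  obtain ⟨A, hA1, hA2, hA3, hA4, hA5⟩ := hP' a ha2 G W hCB hc (hM a ha1 G W hCB hc hk)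
  exact hR' a ha3 G W A hCB hA1 hA2 hA3 hA4 hA5

end Pool.GT7
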